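import Pool.Agent.Helper35.CWS.StA

/-!
# Project CWS, module EXT: extension of a local semiflow over one cell
-/

set_option autoImplicit false

namespace Pool.Agent.Helper80.CWS

open Set Topology Metric Pool.Agent.Helper35.CWS

/-- pasting along two closed sets -/
private theorem paste {α β : Type} [TopologicalSpace α] [TopologicalSpace β] {f : α → β}
    {T C₁ C₂ : Set α} (h1 : IsClosed C₁) (h2 : IsClosed C₂) (hT : T ⊆ C₁ ∪ C₂)
    (hf1 : ContinuousOn f (T ∩ C₁)) (hf2 : ContinuousOn f (T ∩ C₂)) : ContinuousOn f T := by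
  have hE : T = (T ∩ C₁) ∪ (T ∩ C₂) := by
    rw [← inter_union_distrib_left]
    exact (inter_eq_left.2 hT).symm
  have key : ∀ (C : Set α), IsClosed C → ContinuousOn f (T ∩ C) → ∀ x ∈ T,
      ContinuousWithinAt f (T ∩ C) x := by
    intro C hC hf x hx
    by_cases hxC : x ∈ C
    · exact hf x ⟨hx, hxC⟩
    · apply continuousWithinAt_of_notMem_closure
      intro h
      exact hxC (hC.closure_subset_iff.2 inter_subset_right h)
  intro x hx
  rw [hE]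
  exact (key C₁ h1 hf1 x hx).union (key C₂ h2 hf2 x hx)

private theorem norm_dir {n : ℕ} {z : Fin n → ℝ} (hz : 1 / 2 < ‖z‖) : ‖‖z‖⁻¹ • z‖ = 1 := by
  rw [norm_smul, norm_inv, norm_norm, inv_mul_cancel₀]
  linarith

private theorem norm_rad {n : ℕ} {z : Fin n → ℝ} (hz : 1 / 2 < ‖z‖) {t : ℝ} (ht : 0 ≤ ‖z‖ + t) :
    ‖((‖z‖ + t) * ‖z‖⁻¹) • z‖ = ‖z‖ + t := by
  have h0 : ‖z‖ ≠ 0 := by linarith
  rw [norm_smul, norm_mul, norm_inv, norm_norm, Real.norm_of_nonneg ht, mul_assoc,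
    inv_mul_cancel₀ h0, mul_one]

private theorem norm_one_dir {n : ℕ} {z : Fin n → ℝ} (hz : ‖z‖ = 1) : ‖z‖⁻¹ • z = z := by
  rw [hz, inv_one, one_smul]

/-- **Module EXT.** -/
theorem hEXT : StEXC → StQUO → StEXT := by
  classical
  intro hEXC hQUO Y _ _ n A V W Q ε Ψ hA hV hW hWV hQ hinj hball hne hfr hSF
  obtain ⟨N, hN⟩ : ∃ N : Set Y, N = A ∩ W := ⟨_, rfl⟩
  rw [← hN] at hSF ⊢
  obtain ⟨G, hG⟩ : ∃ G : Set (Fin n → ℝ), G = {z | z ∈ closedBall (0 : Fin n → ℝ) 1 ∧ 1 / 2 < ‖z‖ ∧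
    Q (‖z‖⁻¹ • z) ∈ N} := ⟨_, rfl⟩
  have hNA : N ⊆ A := by rw [hN]; exact inter_subset_left
  have hNW : N ⊆ W := by rw [hN]; exact inter_subset_right
  have memG : ∀ z, z ∈ G ↔ (‖z‖ ≤ 1 ∧ 1 / 2 < ‖z‖ ∧ Q (‖z‖⁻¹ • z) ∈ N) := by
    intro z
    rw [hG]
    show (z ∈ closedBall (0 : Fin n → ℝ) 1 ∧ _) ↔ _
    rw [mem_closedBall_zero_iff]
  obtain ⟨g, hg⟩ : ∃ g : ℝ × (Fin n → ℝ) → Y, g = fun p : ℝ × (Fin n → ℝ) =>
      if ‖p.2‖ + p.1 ≤ 1 then Q (((‖p.2‖ + p.1) * ‖p.2‖⁻¹) • p.2) else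
      Ψ (p.1 - (1 - ‖p.2‖)) (Q (‖p.2‖⁻¹ • p.2)) := ⟨_, rfl⟩
  have hgc : ContinuousOn g (Icc 0 ε ×ˢ G) := by
    rw [hg, hG]
    exact hEXC Y n N Q ε Ψ hQ hSF.cont hSF.zero
  have g1 : ∀ (s : ℝ) (z : Fin n → ℝ), ‖z‖ + s ≤ 1 →
      g (s, z) = Q (((‖z‖ + s) * ‖z‖⁻¹) • z) := by
    intro s z h
    rw [hg]
    exact if_pos h
  have g2 : ∀ (s : ℝ) (z : Fin n → ℝ), ¬ ‖z‖ + s ≤ 1 →
      g (s, z) = Ψ (s - (1 - ‖z‖)) (Q (‖z‖⁻¹ • z)) := by
    intro s z h
    rw [hg]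
    exact if_neg h
  -- the complement of `G` is compact
  obtain ⟨O, hO⟩ : ∃ O : Set (Fin n → ℝ), O = {z | 1 / 2 < ‖z‖} ∩
    (fun z : Fin n → ℝ => Q (‖z‖⁻¹ • z)) ⁻¹' W := ⟨_, rfl⟩
  have hOo : IsOpen O := by
    rw [hO]
    have hO1 : IsOpen {z : Fin n → ℝ | 1 / 2 < ‖z‖} := isOpen_lt continuous_const continuous_norm
    refine ContinuousOn.isOpen_inter_preimage ?_ hO1 hW
    refine hQ.comp ?_ ?_
    · intro z hz
      have h0 : ‖z‖ ≠ 0 := by
        have : (1 : ℝ) / 2 < ‖z‖ := hz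
        linarith
      exact ((continuous_norm.continuousAt.inv₀ h0).smul continuousAt_id).continuousWithinAt
    · intro z hz
      rw [mem_closedBall_zero_iff]
      exact (norm_dir hz).le
  have hGO : closedBall (0 : Fin n → ℝ) 1 \ G = closedBall (0 : Fin n → ℝ) 1 \ O := by
    ext z
    constructor
    · rintro ⟨h1, h2⟩
      refine ⟨h1, fun h3 => h2 ?_⟩
      rw [hO] at h3
      rw [memG]
      refine ⟨mem_closedBall_zero_iff.1 h1, h3.1, ?_⟩
      have h4 : Q (‖z‖⁻¹ • z) ∈ W := h3.2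
      rw [hN]
      exact ⟨hfr _ (mem_sphere_zero_iff_norm.2 (norm_dir h3.1)) (hWV h4), h4⟩
    · rintro ⟨h1, h2⟩
      refine ⟨h1, fun h3 => h2 ?_⟩
      rw [memG] at h3
      rw [hO]
      exact ⟨h3.2.1, hNW h3.2.2⟩
  have hcpt : IsClosed (Q '' (closedBall (0 : Fin n → ℝ) 1 \ G)) := by
    rw [hGO]
    refine IsCompact.isClosed (IsCompact.image_of_continuousOn ?_ (hQ.mono sdiff_subset))
    exact (isCompact_closedBall (0 : Fin n → ℝ) 1).diff hOo
  have hcpt2 : IsClosed (Q '' closedBall (0 : Fin n → ℝ) 1) :=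
    ((isCompact_closedBall (0 : Fin n → ℝ) 1).image_of_continuousOn hQ).isClosed
  -- points of the closed ball
  have hcase : ∀ z ∈ closedBall (0 : Fin n → ℝ) 1, z ∈ ball (0 : Fin n → ℝ) 1 ∨ ‖z‖ = 1 := by
    intro z hz
    rw [mem_closedBall_zero_iff] at hz
    rcases lt_or_eq_of_le hz with h | h
    · exact Or.inl (mem_ball_zero_iff.2 h)
    · exact Or.inr h
  -- saturation
  have hsat : ∀ z ∈ G, ∀ z' ∈ closedBall (0 : Fin n → ℝ) 1, Q z' = Q z → z' ∈ G := by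
    intro z hz z' hz' he
    have hz0 := (memG z).1 hz
    rcases hcase z (mem_closedBall_zero_iff.2 hz0.1) with h1 | h1
    · rcases hcase z' hz' with h2 | h2
      · rw [hinj h2 h1 he]
        exact hz
      · exact absurd he.symm (hne z h1 z' (mem_sphere_zero_iff_norm.2 h2))
    · rcases hcase z' hz' with h2 | h2
      · exact absurd he (hne z' h2 z (mem_sphere_zero_iff_norm.2 h1))
      · rw [memG]
        refine ⟨h2.le, by rw [h2]; norm_num, ?_⟩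
        rw [norm_one_dir h2, he]
        have h3 := hz0.2.2
        rwa [norm_one_dir h1] at h3
  -- the new neighbourhood
  obtain ⟨W', hW'⟩ : ∃ W' : Set Y, W' = V \ ((A \ W) ∪ Q '' (closedBall (0 : Fin n → ℝ) 1 \ G)) :=
    ⟨_, rfl⟩
  have hW'o : IsOpen W' := by
    rw [hW']
    refine hV.sdiff (IsClosed.union ?_ hcpt)
    exact hA.sdiff hW
  have hNW' : N ⊆ W' := by
    intro y hy
    rw [hW']
    refine ⟨hWV (hNW hy), ?_⟩
    rintro (h | ⟨z, ⟨hz1, hz2⟩, rfl⟩)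
    · exact h.2 (hNW hy)
    · rcases hcase z hz1 with h1 | h1
      · exact hball z h1 (hNA hy)
      · apply hz2
        rw [memG]
        refine ⟨h1.le, by rw [h1]; norm_num, ?_⟩
        rw [norm_one_dir h1]
        exact hy
  have hAW' : ∀ y ∈ A, y ∈ W' → y ∈ N := by
    intro y hyA hyW
    rw [hW'] at hyW
    rw [hN]
    refine ⟨hyA, ?_⟩
    by_contra h
    exact hyW.2 (Or.inl ⟨hyA, h⟩)
  have hQW' : ∀ y ∈ Q '' closedBall (0 : Fin n → ℝ) 1, y ∈ W' → y ∈ Q '' G := by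
    rintro y ⟨z, hz, rfl⟩ hyW
    rw [hW'] at hyW
    refine ⟨z, ?_, rfl⟩
    by_contra h
    exact hyW.2 (Or.inr ⟨z, ⟨hz, h⟩, rfl⟩)
  -- the new flow
  obtain ⟨Ψ', hΨ'⟩ : ∃ Ψ' : ℝ → Y → Y, Ψ' = fun s y => if y ∈ A then Ψ s y else
      g (s, Function.invFunOn Q (ball (0 : Fin n → ℝ) 1) y) := ⟨_, rfl⟩
  have p1 : ∀ (s : ℝ) (y : Y), y ∈ A → Ψ' s y = Ψ s y := by
    intro s y hy
    rw [hΨ']
    exact if_pos hy
  have p2 : ∀ s ∈ Icc (0 : ℝ) ε, ∀ z ∈ G, Ψ' s (Q z) = g (s, z) := by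
    intro s hs z hz
    have hz0 := (memG z).1 hz
    rcases hcase z (mem_closedBall_zero_iff.2 hz0.1) with h1 | h1
    · have h2 : Ψ' s (Q z) = g (s, Function.invFunOn Q (ball (0 : Fin n → ℝ) 1) (Q z)) := by
        rw [hΨ']
        exact if_neg (hball z h1)
      rw [h2, hinj.leftInvOn_invFunOn h1]
    · have h2 := hz0.2.2
      rw [norm_one_dir h1] at h2
      rw [p1 s _ (hNA h2)]
      by_cases h3 : ‖z‖ + s ≤ 1
      · have h4 : s = 0 := by
          have := hs.1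
          rw [h1] at h3
          linarith
        rw [g1 s z h3, h4, h1, hSF.zero _ h2, add_zero, inv_one, mul_one, one_smul]
      · rw [g2 s z h3, norm_one_dir h1, h1, sub_self, sub_zero]
  refine ⟨W', Ψ', hW'o, by rw [hW']; exact sdiff_subset, hNW', ?_, fun y hy s _ => p1 s y (hNA hy)⟩
  refine ⟨inter_subset_left, hSF.pos, ?_, ?_, ?_, ?_⟩
  · -- continuity
    have c1 : ContinuousOn (fun p : ℝ × Y => Ψ' p.1 p.2) (Icc 0 ε ×ˢ N) := by
      refine hSF.cont.congr ?_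
      rintro ⟨s, y⟩ ⟨_, hy⟩
      exact p1 s y (hNA hy)
    have c2 : ContinuousOn (fun p : ℝ × Y => Ψ' p.1 p.2) (Icc 0 ε ×ˢ (Q '' G)) := by
      refine hQUO Y (Fin n → ℝ) Y (closedBall 0 1) G (Icc 0 ε) Q (fun p : ℝ × Y => Ψ' p.1 p.2) g
        (isCompact_closedBall _ _) ?_ hQ hsat hgc ?_
      · intro z hz
        exact mem_closedBall_zero_iff.2 ((memG z).1 hz).1
      · intro s hs z hz
        exact p2 s hs z hz
    refine paste (C₁ := Prod.snd ⁻¹' A) (C₂ := Prod.snd ⁻¹' (Q '' closedBall (0 : Fin n → ℝ) 1))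
      (hA.preimage continuous_snd) (hcpt2.preimage continuous_snd) ?_ ?_ ?_
    · rintro ⟨s, y⟩ ⟨_, hy⟩
      exact hy.1
    · refine c1.mono ?_
      rintro ⟨s, y⟩ ⟨⟨hs, hy⟩, hyA⟩
      exact ⟨hs, hAW' y hyA hy.2⟩
    · refine c2.mono ?_
      rintro ⟨s, y⟩ ⟨⟨hs, hy⟩, hyQ⟩
      exact ⟨hs, hQW' y hyQ hy.2⟩
  · -- values
    rintro y ⟨hy | hy, hyW⟩ s hs
    · rw [p1 s y hy]
      exact Or.inl (hSF.mem y (hAW' y hy hyW) s hs)
    · obtain ⟨z, hz, rfl⟩ := hQW' y hy hyW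
      have hz0 := (memG z).1 hz
      rw [p2 s hs z hz]
      by_cases h : ‖z‖ + s ≤ 1
      · rw [g1 s z h]
        refine Or.inr ⟨_, ?_, rfl⟩
        rw [mem_closedBall_zero_iff, norm_rad hz0.2.1 (by have := hs.1; linarith)]
        exact h
      · rw [g2 s z h]
        exact Or.inl (hSF.mem _ hz0.2.2 _ ⟨by linarith, by have := hs.2; linarith⟩)
  · -- time zero
    rintro y ⟨hy | hy, hyW⟩
    · rw [p1 0 y hy]
      exact hSF.zero y (hAW' y hy hyW)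
    · obtain ⟨z, hz, rfl⟩ := hQW' y hy hyW
      have hz0 := (memG z).1 hz
      rw [p2 0 ⟨le_refl _, hSF.pos.le⟩ z hz, g1 0 z (by linarith), add_zero,
        mul_inv_cancel₀ (by linarith), one_smul]
  · -- the law
    rintro y ⟨hy | hy, hyW⟩ s s' hs hs' hss hm
    · have hyN := hAW' y hy hyW
      rw [p1 s' y hy] at hm ⊢
      have h1 : Ψ s' y ∈ A := hSF.mem y hyN s' ⟨hs', by linarith⟩
      rw [p1 (s + s') y hy, p1 s _ h1]
      exact hSF.add y hyN s s' hs hs' hss (hAW' _ h1 hm.2)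
    · obtain ⟨z, hz, rfl⟩ := hQW' y hy hyW
      have hz0 := (memG z).1 hz
      have hzne : ‖z‖ ≠ 0 := by linarith
      have e1 : s' ∈ Icc (0 : ℝ) ε := ⟨hs', by linarith⟩
      have e2 : s + s' ∈ Icc (0 : ℝ) ε := ⟨by linarith, hss⟩
      have e3 : s ∈ Icc (0 : ℝ) ε := ⟨hs, by linarith⟩
      rw [p2 s' e1 z hz] at hm ⊢
      rw [p2 (s + s') e2 z hz]
      by_cases h : ‖z‖ + s' ≤ 1
      · rw [g1 s' z h]
        obtain ⟨z', hz'⟩ : ∃ z' : Fin n → ℝ, z' = ((‖z‖ + s') * ‖z‖⁻¹) • z := ⟨_, rfl⟩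
        have hn : ‖z'‖ = ‖z‖ + s' := by
          rw [hz']
          exact norm_rad hz0.2.1 (by linarith)
        have hne' : ‖z‖ + s' ≠ 0 := by linarith
        have hd : ‖z'‖⁻¹ • z' = ‖z‖⁻¹ • z := by
          rw [hn, hz', smul_smul, ← mul_assoc, inv_mul_cancel₀ hne', one_mul]
        have hG' : z' ∈ G := by
          rw [memG]
          refine ⟨by rw [hn]; exact h, by rw [hn]; linarith, ?_⟩
          rw [hd]
          exact hz0.2.2
        rw [← hz', p2 s e3 z' hG']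
        by_cases h' : ‖z'‖ + s ≤ 1
        · rw [g1 s z' h', g1 (s + s') z (by rw [hn] at h'; linarith)]
          congr 1
          rw [mul_smul (‖z'‖ + s), hd, hn, ← mul_smul]
          congr 2
          ring
        · rw [g2 s z' h', g2 (s + s') z (by rw [hn] at h'; intro h3; apply h'; linarith), hd, hn]
          congr 1
          ring
      · rw [g2 s' z h] at hm ⊢
        have h1 : Ψ (s' - (1 - ‖z‖)) (Q (‖z‖⁻¹ • z)) ∈ A :=
          hSF.mem _ hz0.2.2 _ ⟨by linarith, by linarith⟩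
        rw [p1 s _ h1, g2 (s + s') z (by intro h3; apply h; linarith)]
        have h2 := hSF.add _ hz0.2.2 s (s' - (1 - ‖z‖)) hs (by linarith) (by linarith)
          (hAW' _ h1 hm.2)
        rw [← h2]
        congr 1
        ring

end Pool.Agent.Helper80.CWS
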